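import Mathlib

/-!
Every lattice that embeds into the lattice of subspaces of a left vector space over a division
ring embeds into the lattice of subspaces of a vector space over a field: restrict the scalars
to the centre of the division ring.
-/

namespace Pool.Agent.Results.MP_332034_al.RestrictScalars

universe u v w

theorem result (L : Type u) [Lattice L]
    (h : ∃ (D : Type v) (_ : DivisionRing D) (V : Type w) (_ : AddCommGroup V) (_ : Module D V)
      (f : LatticeHom L (Submodule D V)), Function.Injective f) :
    ∃ (F : Type v) (_ : Field F) (W : Type w) (_ : AddCommGroup W) (_ : Module F W)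
      (g : LatticeHom L (Submodule F W)), Function.Injective g := by
  obtain ⟨D, _, V, _, _, f, hf⟩ := h
  refine ⟨Subring.center D, inferInstance, V, inferInstance,
    Module.compHom V (Subring.center D).subtype, ?_⟩
  let _ : Module (Subring.center D) V := Module.compHom V (Subring.center D).subtype
  have hs : ∀ (c : Subring.center D) (x : V), c • x = (c : D) • x := fun c x => rfl
  let r : Submodule D V → Submodule (Subring.center D) V := fun U =>
    { carrier := U
      add_mem' := fun ha hb => U.add_mem ha hb
      zero_mem' := U.zero_mem
      smul_mem' := fun c x hx => by rw [hs]; exact U.smul_mem _ hx }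
  have hr : ∀ (U : Submodule D V) (x : V), x ∈ r U ↔ x ∈ U := fun U x => Iff.rfl
  have hinf : ∀ U U' : Submodule D V, r (U ⊓ U') = r U ⊓ r U' := by
    intro U U'
    ext x
    rfl
  have hsup : ∀ U U' : Submodule D V, r (U ⊔ U') = r U ⊔ r U' := by
    intro U U'
    ext x
    rw [hr, Submodule.mem_sup, Submodule.mem_sup]
    rfl
  have hinj : Function.Injective r := by
    intro U U' hUU
    ext x
    rw [← hr U, ← hr U', hUU]
  refine ⟨{ toFun := fun a => r (f a)
            map_sup' := fun a b => by rw [map_sup, hsup]
            map_inf' := fun a b => by rw [map_inf, hinf] }, ?_⟩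
  intro a b hab
  exact hf (hinj hab)

end Pool.Agent.Results.MP_332034_al.RestrictScalars
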